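import Pool.Agent.H80Skein.LitMain

/-!
Moves between linear combinations of tangles: the unknotting number, the crossing number and the
genus do not come from an injective map on the module of knots modulo such moves.
-/

namespace Pool.Agent.Results.MP_c65973_gt.LinearModule

open H80Skein

/-- Let `A` be a ring, let `𝓜` be a set (finite or not) of moves between `A`-linear combinations of
`n`-tangles with `n ≥ 1`, let `V = A[K]/𝓜` (`SkeinMod 𝓜`) be the module of knots modulo isotopy and
`𝓜`, with the natural map `p` (`cls 𝓜`), and let `I` be the unknotting number, the crossing number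
or the genus. Then there is no injective map `f : V → ℕ` with `I = f ∘ p`. Moreover, if
`p(K) = p(K')` holds exactly when `I(K) = I(K')`, then infinitely many elements of `V` are not
classes of knots. -/
theorem result {A : Type*} [Ring A] (𝓜 : Set (LMove A)) (hn : ∀ μ ∈ 𝓜, 1 ≤ μ.n)
    (I : Word → ℕ∞) (hI : I = unk ∨ I = cr ∨ I = gen) :
    (¬ ∃ f : SkeinMod 𝓜 → ℕ, Function.Injective f ∧
      ∀ D, IsKnot D → (f (cls 𝓜 D) : ℕ∞) = I D) ∧
    ((∀ D E, IsKnot D → IsKnot E → (cls 𝓜 D = cls 𝓜 E ↔ I D = I E)) →
      {w : SkeinMod 𝓜 | ∀ D, IsKnot D → cls 𝓜 D ≠ w}.Infinite) :=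
  ⟨no_inj_all hI 𝓜 hn, many_classes hI 𝓜 hn⟩

end Pool.Agent.Results.MP_c65973_gt.LinearModule
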