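import Pool.Agent.H80Skein.Main

/-!
Local moves with a trivial side do not generate the unknotting number, the crossing number or the
genus.
-/

namespace Pool.Agent.Results.MP_c65973_gt.TrivialSide

open H80Skein

/-- Let `𝓜` be a set of local moves, all but finitely many of which have a trivial tangle as one of
their two sides, and let `I` be the unknotting number, the crossing number or the genus. Suppose
that `𝓜`-equivalent knots have the same value of `I`, and that, for some `B`, the knots with any
given value of `I` form at most `B` classes (for `B = 1` this says that `𝓜` generates `I`: two knots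
have the same `I` if and only if they are `𝓜`-equivalent). Then some move of `𝓜` has at least two
strings and two nontrivial sides, and for infinitely many primes `p` the Fox `p`-colourings of its
endpoints that extend over one side are not those that extend over the other side. -/
theorem result (𝓜 : Set Move)
    (hfin : {μ : Move | μ ∈ 𝓜 ∧ ¬ IsTrivial μ.n μ.s ∧ ¬ IsTrivial μ.n μ.t}.Finite)
    (I : Word → ℕ∞) (hI : I = unk ∨ I = cr ∨ I = gen)
    (hd : Descends 𝓜 I) (B : ℕ) (hB : AtMost B 𝓜 I) :
    ∃ μ ∈ 𝓜, 2 ≤ μ.n ∧ ¬ IsTrivial μ.n μ.s ∧ ¬ IsTrivial μ.n μ.t ∧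
      {p : ℕ | ∃ _ : Fact p.Prime, BdryCol p μ.n μ.s ≠ BdryCol p μ.n μ.t}.Infinite :=
  main 𝓜 hfin I hI hd B hB

end Pool.Agent.Results.MP_c65973_gt.TrivialSide
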